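import Pool.Agent.H84.SS.Targets

set_option autoImplicit false

namespace Pool.Agent.H73.SS

open MeasureTheory Filter Topology Set ProbabilityTheory
open scoped ENNReal ComplexConjugate
open Pool.Agent.H84.SS
open Pool.Agent.H85.RT (avg GoodWeight Good)
open Pool.Agent.H94.RTB (LGood PD)

universe u v

/-- Finitely many points carry most of the atomic mass. -/
theorem pf_SML : A_SML := by
  intro σ _ ε hε
  have h1 : ∑' t : T1, σ {t} ≠ ∞ := by
    refine ne_top_of_le_ne_top (measure_ne_top σ (⋃ t : T1, {t})) ?_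
    refine tsum_meas_le_meas_iUnion_of_disjoint σ (fun t => measurableSet_singleton t) ?_
    intro a b hab
    exact Set.disjoint_singleton.2 hab
  have h2 := ENNReal.tendsto_tsum_compl_atTop_zero h1
  have h3 : ∀ᶠ F : Finset T1 in atTop,
      ∑' b : {x : T1 // x ∉ F}, σ {(b : T1)} < ENNReal.ofReal ε :=
    (tendsto_order.1 h2).2 _ (ENNReal.ofReal_pos.2 hε)
  obtain ⟨F, hF⟩ := h3.exists
  refine ⟨F, ENNReal.toReal_le_of_le_ofReal hε.le (le_trans ?_ hF.le)⟩
  have hsub : atoms (σ.restrict (F : Set T1)ᶜ) ⊆ atoms σ \ (F : Set T1) := by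
    intro t ht
    have ht' : (σ.restrict (F : Set T1)ᶜ) {t} ≠ 0 := ht
    rw [Measure.restrict_apply (measurableSet_singleton t)] at ht'
    constructor
    · intro h0
      exact ht' (measure_mono_null inter_subset_left h0)
    · intro htF
      apply ht'
      have : ({t} : Set T1) ∩ (F : Set T1)ᶜ = ∅ := by
        rw [Set.singleton_inter_eq_empty]
        exact fun h => h htF
      rw [this, measure_empty]
  have hcount : (atoms σ).Countable := by
    have h4 := Measure.countable_meas_level_set_pos (μ := σ) (g := fun t : T1 => t) measurable_id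
    refine h4.mono ?_
    intro t ht
    have ht' : σ {t} ≠ 0 := ht
    have h5 : {a : T1 | a = t} = {t} := by
      ext a
      simp
    show 0 < σ {a : T1 | a = t}
    rw [h5]
    exact pos_iff_ne_zero.2 ht'
  have hc2 : (atoms σ \ (F : Set T1)).Countable := hcount.mono Set.sdiff_subset
  calc (σ.restrict (F : Set T1)ᶜ) (atoms (σ.restrict (F : Set T1)ᶜ))
      ≤ σ (atoms (σ.restrict (F : Set T1)ᶜ)) := Measure.restrict_apply_le _ _
    _ ≤ σ (atoms σ \ (F : Set T1)) := measure_mono hsub
    _ = σ (⋃ t ∈ (atoms σ \ (F : Set T1)), {t}) := by rw [Set.biUnion_of_singleton]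
    _ ≤ ∑' t : (atoms σ \ (F : Set T1) : Set T1), σ {(t : T1)} :=
        measure_biUnion_le σ hc2 _
    _ ≤ ∑' b : {x : T1 // x ∉ F}, σ {(b : T1)} := by
        refine ENNReal.tsum_comp_le_tsum_of_injective
          (f := fun t : (atoms σ \ (F : Set T1) : Set T1) =>
            (⟨t.1, fun h => t.2.2 h⟩ : {x : T1 // x ∉ F})) ?_
          (fun b => σ {(b : T1)})
        intro a b hab
        have := congrArg Subtype.val hab
        exact Subtype.ext this

end Pool.Agent.H73.SS
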